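import Pool.Agent.H207.BT.Stm4
import Pool.Agent.H211.HY.AsmC0

/-!
# Project BT: the concrete root lemma from the abstract one
-/

set_option autoImplicit false

open Topology Filter Metric Set

namespace Pool.Agent.H895.BT207

open Pool.Agent.H790R3.RB Pool.Agent.H211.HY Pool.Agent.H207.BT

/-- the constant -/
noncomputable def CC (c : ℂ) : ℝ := Real.sqrt (2 * (‖c‖ ^ 2 + 1)) * (1 + ‖c‖⁻¹)

theorem RR_ge (c : ℂ) : 1 ≤ Real.sqrt (2 * (‖c‖ ^ 2 + 1)) := by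
  rw [Real.one_le_sqrt]
  have := sq_nonneg ‖c‖
  linarith

theorem CC_ge (c : ℂ) : 1 ≤ CC c := by
  unfold CC
  have h1 := RR_ge c
  have h2 : 0 ≤ ‖c‖⁻¹ := by positivity
  nlinarith

theorem S_le {p : ℂ × ℂ} {c : ℂ} {a : ℝ} (ha : 0 ≤ a) (h1 : ‖p.1‖ ≤ a) (h2 : ‖p.2‖ ≤ a) :
    Real.sqrt (N2 p * N2 (c, 1)) ≤ Real.sqrt (2 * (‖c‖ ^ 2 + 1)) * a := by
  rw [Real.sqrt_le_iff]
  refine ⟨by positivity, ?_⟩
  rw [mul_pow, Real.sq_sqrt (by positivity)]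
  have e1 : N2 p ≤ 2 * a ^ 2 := by
    unfold N2
    have := pow_le_pow_left₀ (norm_nonneg p.1) h1 2
    have := pow_le_pow_left₀ (norm_nonneg p.2) h2 2
    linarith
  have e2 : N2 (c, 1) = ‖c‖ ^ 2 + 1 := by
    unfold N2
    simp
  rw [e2]
  have e3 : (0 : ℝ) ≤ ‖c‖ ^ 2 + 1 := by positivity
  calc N2 p * (‖c‖ ^ 2 + 1) ≤ 2 * a ^ 2 * (‖c‖ ^ 2 + 1) := mul_le_mul_of_nonneg_right e1 e3
    _ = 2 * (‖c‖ ^ 2 + 1) * a ^ 2 := by ring

theorem div_aux {D a S K : ℝ} (hD : 0 ≤ D) (ha : 0 < a) (hS : 0 < S) (h : S ≤ K * a) :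
    D / a ≤ K * (D / S) := by
  rw [div_le_iff₀ ha]
  calc D = D / S * S := by field_simp
    _ ≤ D / S * (K * a) := mul_le_mul_of_nonneg_left h (by positivity)
    _ = K * (D / S) * a := by ring

theorem geo {p : ℂ × ℂ} (hp : p ≠ 0) {c : ℂ} (hc : cho p (c, 1) ≤ 1 / 2) :
    dn (tau p) (c, 1) ≠ 0 ∧ ‖zc p - lc (tau p) (c, 1)‖ ≤ CC c * cho p (c, 1) := by
  have hS : 0 < Real.sqrt (N2 p * N2 (c, 1)) :=
    Real.sqrt_pos.2 (mul_pos (N2_pos hp) (N2_pos (one_ne c)))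
  have hR := RR_ge c
  have hci : 0 ≤ ‖c‖⁻¹ := by positivity
  by_cases ht : ‖p.1‖ ≤ ‖p.2‖
  · have hτ : tau p = true := by
      unfold tau
      simpa using ht
    have h2 : p.2 ≠ 0 := by
      intro h0
      rw [h0, norm_zero] at ht
      exact hp (Prod.ext (norm_le_zero_iff.1 ht) h0)
    have ha := norm_pos_iff.2 h2
    have hz : zc p = p.1 / p.2 := by
      unfold zc
      rw [hτ]
      simp [lc]
    rw [hz, hτ]
    refine ⟨by simp [dn], ?_⟩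
    have e1 : ‖p.1 / p.2 - lc true (c, 1)‖ = ‖cr p (c, 1)‖ / ‖p.2‖ := by
      rw [← norm_div]
      congr 1
      simp only [lc, cr, if_true]
      field_simp
    rw [e1]
    unfold cho
    refine div_aux (norm_nonneg _) ha hS ((S_le ha.le ht le_rfl).trans ?_)
    refine mul_le_mul_of_nonneg_right ?_ ha.le
    unfold CC
    nlinarith
  · have ht' : ‖p.2‖ ≤ ‖p.1‖ := (not_le.1 ht).le
    have hτ : tau p = false := by
      unfold tau
      simpa using ht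
    have h1 : p.1 ≠ 0 := by
      intro h0
      rw [h0, norm_zero] at ht'
      exact hp (Prod.ext h0 (norm_le_zero_iff.1 ht'))
    have ha := norm_pos_iff.2 h1
    have hz : zc p = p.2 / p.1 := by
      unfold zc
      rw [hτ]
      simp [lc]
    have hc0 : c ≠ 0 := by
      rintro rfl
      have e1 : ‖cr p (0, 1)‖ = ‖p.1‖ := by
        simp [cr]
      have e2 : Real.sqrt (N2 p * N2 (0, 1)) ≤ Real.sqrt 2 * ‖p.1‖ := by
        have := S_le (p := p) (c := 0) ha.le le_rfl ht'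
        simpa using this
      unfold cho at hc
      rw [e1, div_le_iff₀ hS] at hc
      have e3 : Real.sqrt 2 < 2 := by
        rw [Real.sqrt_lt' (by norm_num)]
        norm_num
      nlinarith
    have hcp := norm_pos_iff.2 hc0
    rw [hz, hτ]
    refine ⟨by simpa [dn] using hc0, ?_⟩
    have e1 : ‖p.2 / p.1 - lc false (c, 1)‖ = ‖cr p (c, 1)‖ / (‖p.1‖ * ‖c‖) := by
      rw [← norm_mul, ← norm_div, ← norm_neg]
      congr 1
      simp only [lc, cr]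
      simp only [Bool.false_eq_true, if_false]
      field_simp
      ring
    rw [e1]
    unfold cho
    refine div_aux (norm_nonneg _) (by positivity) hS ((S_le ha.le le_rfl ht').trans ?_)
    unfold CC
    have e4 : Real.sqrt (2 * (‖c‖ ^ 2 + 1)) * (1 + ‖c‖⁻¹) * (‖p.1‖ * ‖c‖) =
        Real.sqrt (2 * (‖c‖ ^ 2 + 1)) * ‖p.1‖ * (1 + ‖c‖) := by
      field_simp
      ring
    rw [e4]
    have e5 : 0 ≤ Real.sqrt (2 * (‖c‖ ^ 2 + 1)) * ‖p.1‖ := by positivity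
    nlinarith

theorem key (h1 : S_ROOTA) (h2 : S_RTC) {d k : ℕ} {x₀ : CV d} {c₀ : Fin k → ℂ} {m : Fin k → ℕ}
    {X : (Fin k → ℂ) → CV d} {c : Fin k → (Fin k → ℂ) → ℂ} {ρ : ℝ} (hd : 2 ≤ d) (hx : ND x₀)
    (hw : wr x₀ (1, 0) ≠ 0) (hF' : Fac x₀ k c₀ m) (hfam : Fami x₀ k c₀ m X c ρ) (l : Fin k)
    (τ : Bool) :
    ∃ η > (0 : ℝ), ∃ B ≥ (1 : ℝ),
      ∀ (p : ℂ × ℂ) (w : (Fin k → ℂ) → ℂ) (y r K : ℝ), p ≠ 0 → tau p = τ →
        cho p (c₀ l, 1) ≤ η → 0 < y → y ≤ η →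
        y ^ (m l + 1) = ‖w 0 - cv x₀ X (c₀ l) (c l) 0‖ → 0 < r → 1 ≤ K →
        B * K * r ≤ y ^ (m l + 1) →
        (∀ s ∈ ball (0 : Fin k → ℂ) r, ∀ s' ∈ ball (0 : Fin k → ℂ) r,
          ‖w s - w s'‖ ≤ K * ‖s - s'‖) →
        ∃ q : (Fin k → ℂ) → ℂ,
          ‖q 0 - zc p‖ ≤ B * (y + cho p (c₀ l, 1)) ∧ y ≤ B * ‖q 0 - zc p‖ ∧
          (∀ s ∈ ball (0 : Fin k → ℂ) r, ∀ s' ∈ ball (0 : Fin k → ℂ) r,
            y ^ m l * ‖q s - q s'‖ ≤ B * K * ‖s - s'‖) ∧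
          ∀ s ∈ ball (0 : Fin k → ℂ) r, wr (X s) (iot (tau p) (q s)) ≠ 0 ∧
            cr (hF (X s) (iot (tau p) (q s))) (iot (tau (qo x₀ (c₀ l) 1)) (w s)) = 0 := by
  by_cases hdn : dn τ (c₀ l, 1) = 0
  · refine ⟨1 / 2, by norm_num, 1, le_rfl, ?_⟩
    intro p w y r K hp hτ hcho
    have h3 := (geo hp hcho).1
    rw [hτ] at h3
    exact absurd hdn h3
  obtain ⟨ρ₂, hρ₂, hρ₂ρ, h₁, e1, e2, e3, e4, e5⟩ :=
    h2 d k x₀ c₀ m X c ρ hd hx hw hF' hfam l τ hdn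
  have hζ0 : lc τ (c l 0, 1) = lc τ (c₀ l, 1) := by rw [hfam.c0]
  obtain ⟨η₁, hη₁, hη₁ρ, B₁, hB₁, H⟩ := h1 k (m l) ρ₂
    (fun s u => GG (X s) τ (tau (qo x₀ (c₀ l) 1)) u) (fun s => lc τ (c l s, 1)) h₁ (hF'.pos l) hρ₂
    e1 (by simpa only [hζ0] using e2) (by simpa only [hζ0] using e3)
    (by simpa only [hζ0] using e4) (fun s hs u hu => by
      simp only [hζ0] at hu
      exact ((e5 s hs).2.2 u hu).1)
  have hC := CC_ge (c₀ l)
  have hC0 : 0 < CC (c₀ l) := by linarith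
  refine ⟨min (1 / 2) (η₁ / CC (c₀ l)), lt_min (by norm_num) (by positivity), B₁ * CC (c₀ l),
    by nlinarith, ?_⟩
  intro p w y r K hp hτ hcho hy hyη hyw hr hK hBK hw'
  have hcho1 : cho p (c₀ l, 1) ≤ 1 / 2 := hcho.trans (min_le_left _ _)
  have hcho2 : CC (c₀ l) * cho p (c₀ l, 1) ≤ η₁ := by
    have := hcho.trans (min_le_right _ _)
    rw [le_div_iff₀ hC0] at this
    linarith
  have hy1 : y ≤ η₁ := by
    have := hyη.trans (min_le_right _ _)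
    rw [le_div_iff₀ hC0] at this
    nlinarith
  obtain ⟨-, hgeo⟩ := geo hp hcho1
  rw [hτ] at hgeo
  have hcv : GG (X 0) τ (tau (qo x₀ (c₀ l) 1)) (lc τ (c l 0, 1)) = cv x₀ X (c₀ l) (c l) 0 :=
    (e5 0 (mem_ball_self hρ₂)).2.1
  have hyy : 0 ≤ y ^ (m l + 1) := by positivity
  have hB0 : 0 < B₁ := by linarith
  have hBK1 : B₁ * K * r ≤ y ^ (m l + 1) := by
    refine le_trans ?_ hBK
    have h3 : 0 ≤ B₁ * K * r := by positivity
    calc B₁ * K * r = B₁ * K * r * 1 := by ring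
      _ ≤ B₁ * K * r * CC (c₀ l) := mul_le_mul_of_nonneg_left hC h3
      _ = B₁ * CC (c₀ l) * K * r := by ring
  obtain ⟨q, q1, q2, q3, q4⟩ := H (zc p) w y r K
    (by simp only [hζ0]; exact hgeo.trans hcho2) hy hy1
    (by simp only [hcv]; exact hyw) hr hK hBK1 hw'
  simp only [hζ0] at q1 q4
  have hcn : 0 ≤ cho p (c₀ l, 1) := by unfold cho; positivity
  refine ⟨q, ?_, ?_, ?_, ?_⟩
  · refine q1.trans ?_
    have h3 : y + ‖zc p - lc τ (c₀ l, 1)‖ ≤ CC (c₀ l) * (y + cho p (c₀ l, 1)) := by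
      have : y ≤ CC (c₀ l) * y := by nlinarith
      linarith
    calc B₁ * (y + ‖zc p - lc τ (c₀ l, 1)‖) ≤ B₁ * (CC (c₀ l) * (y + cho p (c₀ l, 1))) :=
          mul_le_mul_of_nonneg_left h3 hB0.le
      _ = B₁ * CC (c₀ l) * (y + cho p (c₀ l, 1)) := by ring
  · refine q2.trans ?_
    have h3 : 0 ≤ B₁ * ‖q 0 - zc p‖ := by positivity
    calc B₁ * ‖q 0 - zc p‖ = B₁ * ‖q 0 - zc p‖ * 1 := by ring
      _ ≤ B₁ * ‖q 0 - zc p‖ * CC (c₀ l) := mul_le_mul_of_nonneg_left hC h3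
      _ = B₁ * CC (c₀ l) * ‖q 0 - zc p‖ := by ring
  · intro s hs s' hs'
    refine (q3 s hs s' hs').trans ?_
    have h3 : 0 ≤ B₁ * K * ‖s - s'‖ := by positivity
    calc B₁ * K * ‖s - s'‖ = B₁ * K * ‖s - s'‖ * 1 := by ring
      _ ≤ B₁ * K * ‖s - s'‖ * CC (c₀ l) := mul_le_mul_of_nonneg_left hC h3
      _ = B₁ * CC (c₀ l) * K * ‖s - s'‖ := by ring
  · intro s hs
    obtain ⟨g1, g2, g3, g4⟩ := q4 s hs
    obtain ⟨-, f2, f3⟩ := (e5 s g1).2.2 (q s) g2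
    rw [hτ]
    refine ⟨fun h0 => g3 (f3 h0), ?_⟩
    rw [g4] at f2
    exact f2

/-- **The concrete root lemma.** -/
theorem t_ROOTB (h1 : Pool.Agent.H207.BT.S_ROOTA) (h2 : Pool.Agent.H207.BT.S_RTC) :
    Pool.Agent.H207.BT.S_ROOT := by
  intro d k x₀ c₀ m X c ρ hd hx hw hF' hfam
  have hk : 0 < k := hF'.kpos hd
  have : Nonempty (Fin k × Bool) := ⟨(⟨0, hk⟩, true)⟩
  choose η hη B hB H using fun (i : Fin k × Bool) => key h1 h2 hd hx hw hF' hfam i.1 i.2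
  obtain ⟨i0, hi0⟩ := Finite.exists_min η
  obtain ⟨i1, hi1⟩ := Finite.exists_max B
  refine ⟨min ρ (η i0), lt_min hfam.ρ0 (hη i0), min_le_left _ _, B i1, hB i1, ?_⟩
  intro p l w y r K hp hcho hy hyη hyw hr hK hBK hw'
  have e1 : min ρ (η i0) ≤ η (l, tau p) := (min_le_right _ _).trans (hi0 _)
  have e2 : B (l, tau p) ≤ B i1 := hi1 _
  have hB0 : 0 < B (l, tau p) := by
    have := hB (l, tau p)
    linarith
  obtain ⟨q, q1, q2, q3, q4⟩ := H (l, tau p) p w y r K hp rfl (hcho.trans e1) hy (hyη.trans e1) hyw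
    hr hK (le_trans (by
      have h3 : 0 ≤ K * r := by positivity
      calc B (l, tau p) * K * r = B (l, tau p) * (K * r) := by ring
        _ ≤ B i1 * (K * r) := mul_le_mul_of_nonneg_right e2 h3
        _ = B i1 * K * r := by ring) hBK) hw'
  have hcn : 0 ≤ cho p (c₀ l, 1) := by unfold cho; positivity
  refine ⟨q, q1.trans (mul_le_mul_of_nonneg_right e2 (by positivity)),
    q2.trans (mul_le_mul_of_nonneg_right e2 (norm_nonneg _)), ?_, q4⟩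
  intro s hs s' hs'
  refine (q3 s hs s' hs').trans ?_
  have h3 : 0 ≤ K * ‖s - s'‖ := by positivity
  calc B (l, tau p) * K * ‖s - s'‖ = B (l, tau p) * (K * ‖s - s'‖) := by ring
    _ ≤ B i1 * (K * ‖s - s'‖) := mul_le_mul_of_nonneg_right e2 h3
    _ = B i1 * K * ‖s - s'‖ := by ring

end Pool.Agent.H895.BT207
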